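import Mathlib

set_option autoImplicit false

namespace Pool.Agent.H.MP_135240_an

open MeasureTheory Measure Set Filter Topology Metric PiNat
open scoped ENNReal

noncomputable section

/-- block length -/
def H (m : ℕ) : ℕ := 2 ^ (4 ^ m + m)

/-- period -/
def K (m : ℕ) : ℕ := 4 ^ m * H m

theorem Hp (m : ℕ) : 0 < H m := by unfold H; positivity

instance (m : ℕ) : NeZero (K m) := ⟨by have := Hp m; unfold K; positivity⟩

/-- the space -/
abbrev O := ∀ m, ZMod (K m)

/-- uniform law -/
def nu (m : ℕ) : Measure (ZMod (K m)) := (K m : ℝ≥0∞)⁻¹ • count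

instance (m : ℕ) : IsProbabilityMeasure (nu m) :=
  ⟨by simp [nu, ENNReal.inv_mul_cancel, NeZero.ne (K m)]⟩

/-- the measure -/
def P : Measure O := infinitePi nu

instance : IsProbabilityMeasure P := by unfold P; infer_instance

/-- classes -/
def c (m j : ℕ) : ℕ := if j < H m then Nat.log 2 j - m else j / H m

/-- coding -/
def ph (x : O) : ℕ → ℕ × ℕ
  | 0 => (0, c 0 (x 0).val)
  | n + 1 => ((x n).val, c (n + 1) (x (n + 1)).val)

theorem inj : Function.Injective ph := fun _ _ h =>
  funext fun n => ZMod.val_injective _ (congrArg (fun v => (v (n + 1)).1) h)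

theorem cph : Continuous ph := continuous_pi fun n => by
  have a : ∀ n (g : ZMod (K n) → ℕ), Continuous fun x : O => g (x n) := fun n g =>
    continuous_of_discreteTopology.comp (continuous_apply n)
  cases n
  · exact continuous_const.prodMk (a 0 fun t => c 0 t.val)
  exact (a _ _).prodMk (a _ fun t => c _ t.val)

instance ms : MetricSpace O := (MetricSpace.induced ph inj PiNat.metricSpace).replaceTopology
  (cph.isClosedEmbedding inj).isInducing.eq_induced

/-- balls -/
def B (x : O) (n : ℕ) : Set O := ph ⁻¹' cylinder (ph x) n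

theorem bl (x : O) {r : ℝ} {n : ℕ} (a : (1 / 2) ^ (n + 1) < r) (b : r ≤ (1 / 2) ^ n) : ball x r = B x (n + 1) :=
  ext fun _ => ⟨fun h _ i => apply_eq_of_dist_lt (h.trans_le b) (Nat.le_of_lt_succ i),
    fun h => (mem_cylinder_iff_dist_le.1 h).trans_lt a⟩

theorem bx (x : O) {r : ℝ} (h : 0 < r) : ∃ n, ball x r = B x n := by
  rcases le_or_gt r 1 with a | a
  · obtain ⟨n, p, q⟩ := exists_nat_pow_near_of_lt_one h a one_half_pos one_half_lt_one
    exact ⟨_, bl x p q⟩
  exact ⟨0, ext fun _ => iff_of_true ((PiNat.dist_le_one _ _).trans_lt a) (by simp [B])⟩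

theorem oB (x : O) (n : ℕ) : IsOpen (B x n) := (isOpen_cylinder _ _ _).preimage cph

theorem hl (f : O → ℝ) {ε : ℝ} (e : 0 < ε) (i : Integrable f P) :
    P {x | ENNReal.ofReal ε ≤ ⨆ (r : ℝ) (_ : 0 < r), (∫⁻ y in ball x r, ‖f y‖ₑ ∂P) / P (ball x r)} ≤
      ENNReal.ofReal (2 * (∫ y, ‖f y‖ ∂P) / ε) := by
  obtain ⟨u, a, b, d⟩ := Vitali.exists_disjoint_subfamily_covering_enlargement (fun q : O × ℕ => B q.1 q.2)
    {q | ENNReal.ofReal (ε / 2) * P (B q.1 q.2) ≤ ∫⁻ y in B q.1 q.2, ‖f y‖ₑ ∂P} (fun q => (1 / 2) ^ q.2) (3 / 2)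
    (by norm_num) (fun _ _ => by positivity) 1 (fun _ _ => pow_le_one₀ (by norm_num) (by norm_num))
    fun q _ => ⟨q.1, self_mem_cylinder _ _⟩
  have k := b.countable_of_isOpen (fun q _ => oB _ _) fun q _ => ⟨q.1, self_mem_cylinder _ _⟩
  refine (measure_mono (t := ⋃ q ∈ u, B q.1 q.2) fun x h => ?_).trans ((measure_biUnion_le _ k _).trans ?_)
  · obtain ⟨r, h⟩ := lt_iSup_iff.1 (((ENNReal.ofReal_lt_ofReal_iff e).2 (half_lt_self e)).trans_le h)
    obtain ⟨p, h⟩ := lt_iSup_iff.1 h
    obtain ⟨n, s⟩ := bx x p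
    obtain ⟨q, t, ⟨y, v, w⟩, z⟩ := d (x, n) (ENNReal.mul_le_of_le_div (s ▸ h.le))
    have : q.2 ≤ n := not_lt.1 fun g => by
      have := pow_le_pow_of_le_one (show (0 : ℝ) ≤ 1 / 2 by norm_num) (by norm_num) (Nat.succ_le_of_lt g)
      rw [pow_succ] at this
      linarith [show (0 : ℝ) < (1 / 2) ^ n by positivity]
    exact mem_biUnion t fun j l => (v j (l.trans_le this)).symm.trans (w j l)
  rw [show 2 * (∫ y, ‖f y‖ ∂P) / ε = (∫ y, ‖f y‖ ∂P) / (ε / 2) by field_simp, ENNReal.ofReal_div_of_pos (half_pos e),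
    ofReal_integral_norm_eq_lintegral_enorm i, ENNReal.le_div_iff_mul_le (by simp [e]) (by simp), mul_comm,
    ← ENNReal.tsum_mul_left]
  exact (ENNReal.tsum_le_tsum fun q => a q.2).trans ((lintegral_biUnion k (fun q _ => (oB _ _).measurableSet) b _).ge.trans
    (setLIntegral_le_lintegral _ _))

/-- cylinders -/
def cy (x : O) (m : ℕ) (S : Set ℕ) : Set O := {z | (∀ i < m, z i = x i) ∧ (z m).val ∈ S}

theorem Pcy (x : O) (m : ℕ) : ∃ a : ℝ, 0 < a ∧ ∀ S : Set ℕ, MeasurableSet (cy x m S) ∧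
    P (cy x m S) = ENNReal.ofReal a * (S ∩ Iio (K m)).encard := by
  refine ⟨(∏ i ∈ Finset.range (m + 1), (K i : ℝ))⁻¹, inv_pos.2 (Finset.prod_pos fun i _ =>
    Nat.cast_pos.2 (NeZero.pos _)), fun S => ?_⟩
  have : cy x m S = Set.pi (Finset.range (m + 1)) (Function.update (fun i => {x i}) m (ZMod.val ⁻¹' S)) := by
    ext z
    simp only [cy, Set.mem_pi, Finset.coe_range, mem_Iio, Nat.forall_lt_succ_right, Function.update_self, mem_ofPred_eq]
    exact and_congr_left' (forall₂_congr fun i h => by simp [ne_of_lt h])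
  rw [this]
  refine ⟨.pi (Finset.countable_toSet _) fun _ _ => .of_discrete, ?_⟩
  rw [P, infinitePi_pi _ fun _ _ => .of_discrete, Finset.prod_range_succ, Finset.prod_range_succ, Function.update_self,
    Finset.prod_congr rfl (g := fun i => (K i : ℝ≥0∞)⁻¹) fun i h => by simp [(Finset.mem_range.1 h).ne, nu],
    ← encard_preimage_of_injective_subset_range (ZMod.val_injective (K m)) fun i h => ⟨i, ZMod.val_cast_of_lt h.2⟩,
    preimage_inter, show ZMod.val ⁻¹' Iio (K m) = univ from eq_univ_of_forall ZMod.val_lt, inter_univ, nu,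
    Measure.smul_apply, count_apply .of_discrete, smul_eq_mul, ← mul_assoc, ← Finset.prod_range_succ
      (fun i => (K i : ℝ≥0∞)⁻¹), ← Finset.prod_range_succ, ← Finset.prod_inv_distrib,
    ENNReal.ofReal_prod_of_nonneg fun _ _ => by positivity]
  exact congrArg (· * _) (Finset.prod_congr rfl fun i _ => by
    rw [ENNReal.ofReal_inv_of_pos (Nat.cast_pos.2 (NeZero.pos _)), ENNReal.ofReal_natCast])

theorem Bcy (x : O) (m : ℕ) : B x (m + 1) = cy x m {j | c m j = c m (x m).val} := by
  ext z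
  refine ⟨fun h => ⟨fun i a => ZMod.val_injective _ (congrArg Prod.fst (h (i + 1) (by omega))), ?_⟩, fun h i a => ?_⟩
  · have := congrArg Prod.snd (h m (by omega))
    cases m <;> exact this
  have : ∀ i ≤ m, c i (z i).val = c i (x i).val := fun i a => by
    rcases a.eq_or_lt with rfl | a
    exacts [h.2, by rw [h.1 i a]]
  cases i <;> simp only [ph]
  · rw [this 0 (by omega)]
  rw [this _ (by omega), h.1 _ (by omega)]

theorem pos (x : O) {r : ℝ} (h : 0 < r) : 0 < P (ball x r) := by
  obtain ⟨n, a⟩ := bx x h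
  obtain ⟨b, p, q⟩ := Pcy x n
  refine lt_of_lt_of_le ?_ (measure_mono (a ▸ preimage_mono (cylinder_anti _ n.le_succ) : B x (n + 1) ⊆ _))
  rw [Bcy, (q _).2]
  exact ENNReal.mul_pos (by simpa) (by simpa [← nonempty_iff_ne_empty] using ⟨_, rfl, ZMod.val_lt (x n)⟩)

/-- the map -/
def T (x : O) : O := x - 1

theorem mc {β : Type} [MeasurableSpace β] (m : ℕ) (g : ZMod (K m) → β) : Measurable fun x : O => g (x m) :=
  Measurable.of_discrete.comp (measurable_pi_apply m)

theorem mp : MeasurePreserving T P P := ⟨measurable_pi_lambda _ fun m => mc m (· - 1), by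
  refine (infinitePi_map_pi nu (f := fun _ t => t - 1) fun _ => .of_discrete).trans (congrArg _ (funext fun i => ?_))
  simp [nu, Measure.map_smul, map_sub_right_eq_self]⟩

theorem it (j : ℕ) (x : O) (m : ℕ) : T^[j] x m = x m - j := by
  induction j with
  | zero => simp
  | succ j ih => simp [Function.iterate_succ_apply', T, ih, sub_sub]

/-- the function -/
def F (x : O) : ℝ≥0∞ := ∑' m, ({0} : Set (ZMod (K m))).indicator (fun _ => K m * 2⁻¹ ^ m) (x m)

theorem mF : Measurable F := .tsum fun m => mc m _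

theorem iF : ∫⁻ x, F x ∂P ≠ ⊤ := by
  rw [show ∫⁻ x, F x ∂P = _ from lintegral_tsum fun m => (mc m _).aemeasurable,
    tsum_congr (g := fun m => 2⁻¹ ^ m) fun m => ?_]
  · simp
  refine ((measurePreserving_eval_infinitePi nu m).lintegral_comp .of_discrete).trans ?_
  rw [lintegral_indicator_const .of_discrete, nu]
  rw [Measure.smul_apply, count_singleton, smul_eq_mul, mul_one, mul_right_comm,
    ENNReal.mul_inv_cancel (by simp [NeZero.ne (K m)]) (by simp), one_mul]

theorem ig : Integrable (fun x => (F x).toReal) P := integrable_toReal_of_lintegral_ne_top mF.aemeasurable iF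

theorem big (x : O) (m : ℕ) : ∃ k ≥ m, (2 : ℝ) ^ m / 4 ≤
    ⨍ y in ball x ((1 / 2) ^ m), birkhoffAverage ℝ T (fun x => (F x).toReal) k y ∂P := by
  have hp := Hp m
  set i := c m (x m).val with hi
  have a : i < 4 ^ m := by
    rw [hi, c]
    split_ifs with h
    · have := Nat.log_lt_of_lt_pow' (by positivity) h
      have := Nat.pow_pos (n := m) (show 0 < 4 by norm_num)
      omega
    exact Nat.div_lt_of_lt_mul (mul_comm (H m) _ ▸ ZMod.val_lt _)
  have b : 2 ^ (i + m + 1) ≤ H m := Nat.pow_le_pow_right two_pos (by omega)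
  have b' : H m ≤ K m := Nat.le_mul_of_pos_left _ (by positivity)
  obtain ⟨s, p, q⟩ := Pcy x m
  let S := Ico (2 ^ (i + m)) (2 ^ (i + m + 1))
  have d : cy x m S ⊆ cy x m {j | c m j = i} := fun z h => ⟨h.1, by
    rw [mem_ofPred_eq, c, if_pos (h.2.2.trans_le b), Nat.log_eq_of_pow_le_of_lt_pow h.2.1 h.2.2, Nat.add_sub_cancel]⟩
  have e : P.real (cy x m S) = s * 2 ^ (i + m) := by
    rw [Measure.real, (q _).2, inter_eq_left.2 fun j h => (h.2.trans_le b).trans_le b', show S = _ from (Finset.coe_Ico ..).symm,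
      encard_coe_eq_coe_finsetCard, Nat.card_Ico, pow_succ, mul_two, Nat.add_sub_cancel]
    simp [p.le]
  have g : P.real (cy x m {j | c m j = i}) ≤ s * (H m + H m) := by
    refine ENNReal.toReal_le_of_le_ofReal (by positivity) ?_
    rw [(q _).2, ENNReal.ofReal_mul p.le, ← Nat.cast_add, ENNReal.ofReal_natCast, ← ENat.toENNReal_coe]
    refine mul_le_mul_right (ENat.toENNReal_le.2 ((encard_le_encard (t := ↑(Finset.range (H m) ∪
      Finset.Ico (i * H m) (i * H m + H m))) fun j h => ?_).trans ?_)) _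
    · have := h.1
      rw [mem_ofPred_eq, c] at this
      split_ifs at this with l
      · simp [l]
      simp [← this, Nat.div_mul_le_self, Nat.lt_div_mul_add hp]
    rw [encard_coe_eq_coe_finsetCard]
    exact mod_cast (Finset.card_union_le ..).trans_eq (by simp)
  have n := pos x (show (0 : ℝ) < (1 / 2) ^ m by positivity)
  refine ⟨2 ^ (i + m + 1), (by omega : m ≤ i + m + 1).trans Nat.lt_two_pow_self.le, ?_⟩
  rw [bl x (pow_lt_pow_right_of_lt_one₀ one_half_pos one_half_lt_one m.lt_succ_self) le_rfl, Bcy] at n ⊢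
  have o : 0 < P.real _ := ENNReal.toReal_pos n.ne' (measure_ne_top _ _)
  have t : Integrable (birkhoffAverage ℝ T (fun x => (F x).toReal) (2 ^ (i + m + 1))) P :=
    (integrable_finsetSum _ fun j _ => (mp.iterate j).integrable_comp_of_integrable ig).smul (_ : ℝ)
  rw [setAverage_eq, smul_eq_mul, le_inv_mul_iff₀ o]
  refine le_trans ?_ (setIntegral_mono_set t.integrableOn (.of_forall fun y => smul_nonneg (by positivity)
    (Finset.sum_nonneg fun _ _ => ENNReal.toReal_nonneg)) d.eventuallyLE)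
  refine le_trans ?_ (setIntegral_mono_on_ae (f := fun _ => (K m / 2 ^ m / 2 ^ (i + m + 1) : ℝ)) (by simp)
    t.integrableOn (q _).1 ?_)
  · rw [setIntegral_const, e, smul_eq_mul]
    refine (mul_le_mul_of_nonneg_right g (by positivity)).trans_eq ?_
    rw [K, show 4 ^ m = 2 ^ m * 2 ^ m from mul_pow 2 2 m]
    push_cast
    field_simp
    ring
  filter_upwards [ae_all_iff.2 fun j => (mp.iterate j).quasiMeasurePreserving.ae (ae_lt_top mF iF)] with y h l
  rw [birkhoffAverage, smul_eq_mul, div_eq_inv_mul, Nat.cast_pow, Nat.cast_two]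
  refine mul_le_mul_of_nonneg_left (le_trans ?_ (Finset.single_le_sum (f := fun j => (F (T^[j] y)).toReal)
    (fun _ _ => ENNReal.toReal_nonneg) (Finset.mem_range.2 l.2.2))) (by positivity)
  refine le_trans ?_ (ENNReal.toReal_mono (h _).ne (ENNReal.le_tsum m))
  simp [it, div_eq_mul_inv]

end

end Pool.Agent.H.MP_135240_an
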